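import Pool.Agent.Run7.h472.OH.Iface3

/-!
# BAN: from smallness to polynomial decay (pure analysis, induction over scales)
-/

set_option autoImplicit false
open MeasureTheory ProbabilityTheory Filter Set
open scoped ENNReal Pointwise Topology

namespace Pool.Agent.Run7.h781.OH

open Pool.Agent.Run7.h472.OH

/-- choice of the ratio of the scales -/
theorem exM (B r : ℝ) (a : ℕ) (hr : 0 < r) :
    ∃ M : ℕ, 2 ≤ M ∧ 4 * B ^ (3 + a) * (M : ℝ) ^ (-r) ≤ 1 / 4 := by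
  have h1 : Tendsto (fun M : ℕ => 4 * B ^ (3 + a) * (M : ℝ) ^ (-r)) atTop
      (𝓝 (4 * B ^ (3 + a) * 0)) :=
    ((tendsto_rpow_neg_atTop hr).comp tendsto_natCast_atTop_atTop).const_mul _
  rw [mul_zero] at h1
  have h2 : ∀ᶠ M : ℕ in atTop, 4 * B ^ (3 + a) * (M : ℝ) ^ (-r) < 1 / 4 :=
    h1.eventually_lt_const (by norm_num)
  obtain ⟨M, hM, hM2⟩ := ((eventually_ge_atTop 2).and h2).exists
  exact ⟨M, hM, hM2.le⟩

/-- the power of the ratio of the scales -/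
theorem powM (M : ℝ) (hM : 0 < M) (a : ℕ) (t : ℝ) :
    M ^ 2 * (M ^ (-t)) ^ a = M ^ (-(a * t - 2)) := by
  rw [← Real.rpow_natCast (M ^ (-t)) a, ← Real.rpow_mul hM.le, ← Real.rpow_natCast M 2,
    ← Real.rpow_add hM]
  congr 1
  push_cast
  ring

theorem t_BAN : S_BAN := by
  intro F Mm a B hB hF hM0 hbase hmk hrec κ κ' hk' hkk hk1 ha
  obtain ⟨k2, hk2⟩ : ∃ k2 : ℝ, k2 = (κ + κ') / 2 := ⟨_, rfl⟩
  have hk2a : κ' < k2 := by rw [hk2]; linarith
  have hk2b : k2 < κ := by rw [hk2]; linarith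
  have hk2c : 0 < 1 - k2 := by linarith
  have hBp : 0 < B := by linarith
  have ha1 : 1 ≤ a := by
    rcases Nat.eq_zero_or_pos a with h | h
    · subst h; norm_num at ha
    · exact h
  have har : 0 < (a : ℝ) * (1 - k2) - 2 := by
    have : (a : ℝ) * (1 - κ) ≤ a * (1 - k2) :=
      mul_le_mul_of_nonneg_left (by linarith) (Nat.cast_nonneg a)
    linarith
  obtain ⟨M, hM2, hMr⟩ := exM B _ a har
  have hM2' : (2 : ℝ) ≤ M := by exact_mod_cast hM2
  have hMp : (0 : ℝ) < M := by linarith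
  rw [← powM (M : ℝ) hMp] at hMr
  obtain ⟨ε, hε⟩ : ∃ ε : ℝ, ε = 1 / (16 * B ^ 3 * M ^ 2 * 2 ^ a) := ⟨_, rfl⟩
  have hεp : 0 < ε := by rw [hε]; positivity
  have hε1 : 4 * B ^ 3 * M ^ 2 * (2 ^ a * ε) = 1 / 4 := by
    rw [hε]; field_simp; norm_num
  have hε2 : 2 ^ a * ε ≤ 1 / 4 := by
    have h1 : (1 : ℝ) ≤ 4 * B ^ 3 * M ^ 2 := by
      have h2 : (1 : ℝ) ≤ B ^ 3 := one_le_pow₀ hB
      have h3 : (1 : ℝ) ≤ (M : ℝ) ^ 2 := one_le_pow₀ (by linarith)
      nlinarith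
    have h4 : 0 ≤ 2 ^ a * ε := by positivity
    rw [← hε1]
    exact le_mul_of_one_le_left h4 h1
  refine ⟨ε, hεp, fun hev => ?_⟩
  obtain ⟨n1, hn1⟩ := eventually_atTop.1 hev
  have hB2 : ∀ᶠ n : ℕ in atTop, B ≤ (n : ℝ) ^ κ :=
    ((tendsto_rpow_atTop (by linarith : 0 < κ)).comp
      tendsto_natCast_atTop_atTop).eventually_ge_atTop B
  obtain ⟨n2, hn2⟩ := eventually_atTop.1 hB2
  obtain ⟨n0, hn0⟩ : ∃ n0 : ℕ, n0 = max 1 (max n1 n2) := ⟨_, rfl⟩
  have hn01 : 1 ≤ n0 := by rw [hn0]; exact le_max_left _ _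
  have hn0a : n1 ≤ n0 := by rw [hn0]; exact (le_max_left _ _).trans (le_max_right _ _)
  have hn0b : n2 ≤ n0 := by rw [hn0]; exact (le_max_right _ _).trans (le_max_right _ _)
  obtain ⟨A0, hA0⟩ : ∃ A0 : ℝ, A0 = B * ((M : ℝ) * n0 + M) ^ k2 + 2 * B * M := ⟨_, rfl⟩
  have hA0a : B * ((M : ℝ) * n0 + M) ^ k2 ≤ A0 := by
    rw [hA0]; have : 0 ≤ 2 * B * M := by positivity
    linarith
  have hA0b : 2 * B * M ≤ A0 := by
    rw [hA0]; have : 0 ≤ B * ((M : ℝ) * n0 + M) ^ k2 := by positivity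
    linarith
  have hA0p : 0 < A0 := lt_of_lt_of_le (by positivity) hA0b
  have key : ∀ n : ℕ, n0 ≤ n →
      Mm n ((n : ℝ) ^ (1 - κ)) (A0 * (n : ℝ) ^ (1 - k2)) ≤ 1 := by
    intro n
    induction n using Nat.strong_induction_on with
    | _ N ih =>
      intro hN
      have hN1 : 1 ≤ N := hn01.trans hN
      have hN1' : (1 : ℝ) ≤ N := by exact_mod_cast hN1
      have hNp : (0 : ℝ) < N := by linarith
      have hFN : F N ((N : ℝ) ^ (1 - κ)) ≤ ε := hn1 N (hn0a.trans hN)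
      have hFN2 : 2 ^ a * F N ((N : ℝ) ^ (1 - κ)) ≤ 1 / 4 :=
        (mul_le_mul_of_nonneg_left hFN (by positivity)).trans hε2
      have hSp : 0 < A0 * (N : ℝ) ^ (1 - k2) := by positivity
      rcases lt_or_ge N (M * n0 + M) with hlt | hge
      · -- base
        have h1 : B * (N : ℝ) ≤ A0 * (N : ℝ) ^ (1 - k2) := by
          have h2 : (N : ℝ) = (N : ℝ) ^ k2 * (N : ℝ) ^ (1 - k2) := by
            rw [← Real.rpow_add hNp]; simp
          have h3 : (N : ℝ) ^ k2 ≤ ((M : ℝ) * n0 + M) ^ k2 := by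
            apply Real.rpow_le_rpow hNp.le _ (by linarith)
            exact_mod_cast hlt.le
          calc B * (N : ℝ) = B * (N : ℝ) ^ k2 * (N : ℝ) ^ (1 - k2) := by
                rw [mul_assoc, ← h2]
            _ ≤ A0 * (N : ℝ) ^ (1 - k2) := by
                apply mul_le_mul_of_nonneg_right _ (by positivity)
                exact (mul_le_mul_of_nonneg_left h3 hBp.le).trans hA0a
        exact (hbase N _ _ hN1 hSp h1).trans (by linarith)
      · -- step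
        obtain ⟨n, hn⟩ : ∃ n : ℕ, n = N / M := ⟨_, rfl⟩
        have hM0' : 0 < M := by omega
        have hnM : M * n ≤ N := by rw [hn]; exact Nat.mul_div_le N M
        have hnM2 : N < M * (n + 1) := by
          rw [hn]; have := Nat.lt_mul_div_succ N hM0'
          simpa [Nat.succ_eq_add_one] using this
        have hnn0 : n0 + 1 ≤ n := by
          rw [hn, Nat.le_div_iff_mul_le hM0']
          calc (n0 + 1) * M = M * n0 + M := by ring
            _ ≤ N := hge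
        have hn1' : 1 ≤ n := by omega
        have hnN : n < N := by nlinarith
        have hnr : (1 : ℝ) ≤ n := by exact_mod_cast hn1'
        have hnp : (0 : ℝ) < n := by linarith
        have hnMr : (M : ℝ) * n ≤ N := by exact_mod_cast hnM
        have hnM2r : (N : ℝ) ≤ M * (n + 1) := by exact_mod_cast hnM2.le
        have hq1 : (N : ℝ) / n ≤ 2 * M := by
          rw [div_le_iff₀ hnp]; nlinarith
        have hq0 : 0 ≤ (N : ℝ) / n := by positivity
        have hgle : (n : ℝ) ^ (1 - κ) ≤ n / B := by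
          rw [le_div_iff₀ hBp]
          have h2 : B ≤ (n : ℝ) ^ κ := hn2 n (by omega)
          calc (n : ℝ) ^ (1 - κ) * B ≤ (n : ℝ) ^ (1 - κ) * (n : ℝ) ^ κ :=
                mul_le_mul_of_nonneg_left h2 (by positivity)
            _ = n := by rw [← Real.rpow_add hnp]; simp
        have hsp : 0 < A0 * (n : ℝ) ^ (1 - k2) := by positivity
        have hKg : B * ((N : ℝ) / n) * (n : ℝ) ^ (1 - κ) ≤ A0 * (N : ℝ) ^ (1 - k2) := by
          have h2 : (n : ℝ) ^ (1 - κ) ≤ (N : ℝ) ^ (1 - k2) :=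
            (Real.rpow_le_rpow_of_exponent_le hnr (by linarith : 1 - κ ≤ 1 - k2)).trans
              (Real.rpow_le_rpow hnp.le (by exact_mod_cast hnN.le) hk2c.le)
          have h3 : B * ((N : ℝ) / n) ≤ A0 := by
            calc B * ((N : ℝ) / n) ≤ B * (2 * M) := mul_le_mul_of_nonneg_left hq1 hBp.le
              _ = 2 * B * M := by ring
              _ ≤ A0 := hA0b
          exact mul_le_mul h3 h2 (by positivity) hA0p.le
        have hratio : B * (A0 * (n : ℝ) ^ (1 - k2)) / (A0 * (N : ℝ) ^ (1 - k2)) ≤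
            B * (M : ℝ) ^ (-(1 - k2)) := by
          have h2 : ((M : ℝ) * n) ^ (1 - k2) ≤ (N : ℝ) ^ (1 - k2) :=
            Real.rpow_le_rpow (by positivity) hnMr hk2c.le
          rw [Real.mul_rpow hMp.le hnp.le] at h2
          rw [div_le_iff₀ hSp, Real.rpow_neg hMp.le]
          have h3 : 0 < (M : ℝ) ^ (1 - k2) := by positivity
          have h4 : (n : ℝ) ^ (1 - k2) ≤ ((M : ℝ) ^ (1 - k2))⁻¹ * (N : ℝ) ^ (1 - k2) := by
            rw [inv_mul_eq_div, le_div_iff₀ h3, mul_comm]; exact h2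
          calc B * (A0 * (n : ℝ) ^ (1 - k2))
              ≤ B * (A0 * (((M : ℝ) ^ (1 - k2))⁻¹ * (N : ℝ) ^ (1 - k2))) := by
                apply mul_le_mul_of_nonneg_left _ hBp.le
                exact mul_le_mul_of_nonneg_left h4 hA0p.le
            _ = B * ((M : ℝ) ^ (1 - k2))⁻¹ * (A0 * (N : ℝ) ^ (1 - k2)) := by ring
        obtain ⟨θ, hθ⟩ : ∃ θ : ℝ, θ = 2 ^ a * F n ((n : ℝ) ^ (1 - κ)) +
            (B * (A0 * (n : ℝ) ^ (1 - k2)) / (A0 * (N : ℝ) ^ (1 - k2))) ^ a *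
              Mm n ((n : ℝ) ^ (1 - κ)) (A0 * (n : ℝ) ^ (1 - k2)) := ⟨_, rfl⟩
        have hMn0 : 0 ≤ Mm n ((n : ℝ) ^ (1 - κ)) (A0 * (n : ℝ) ^ (1 - k2)) :=
          hM0 n _ _ hn1' hsp
        have hMn1 : Mm n ((n : ℝ) ^ (1 - κ)) (A0 * (n : ℝ) ^ (1 - k2)) ≤ 1 :=
          ih n hnN (by omega)
        have hθ0 : 0 ≤ θ := by
          rw [hθ]
          have := hF n ((n : ℝ) ^ (1 - κ))
          positivity
        have hθ1 : θ ≤ 2 ^ a * ε + (B * (M : ℝ) ^ (-(1 - k2))) ^ a := by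
          rw [hθ]
          have h1 : 2 ^ a * F n ((n : ℝ) ^ (1 - κ)) ≤ 2 ^ a * ε :=
            mul_le_mul_of_nonneg_left (hn1 n (by omega)) (by positivity)
          have h2 : (B * (A0 * (n : ℝ) ^ (1 - k2)) / (A0 * (N : ℝ) ^ (1 - k2))) ^ a ≤
              (B * (M : ℝ) ^ (-(1 - k2))) ^ a :=
            pow_le_pow_left₀ (by positivity) hratio a
          have h3 : (B * (A0 * (n : ℝ) ^ (1 - k2)) / (A0 * (N : ℝ) ^ (1 - k2))) ^ a *
              Mm n ((n : ℝ) ^ (1 - κ)) (A0 * (n : ℝ) ^ (1 - k2)) ≤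
              (B * (M : ℝ) ^ (-(1 - k2))) ^ a * 1 :=
            mul_le_mul h2 hMn1 hMn0 (by positivity)
          linarith
        have hθ2 : (B * ((N : ℝ) / n)) ^ 2 * θ ≤ (B * (2 * M)) ^ 2 * θ := by
          apply mul_le_mul_of_nonneg_right _ hθ0
          apply pow_le_pow_left₀ (by positivity)
          exact mul_le_mul_of_nonneg_left hq1 hBp.le
        have hθ3 : B * ((B * (2 * M)) ^ 2 * θ) ≤ 1 / 2 := by
          calc B * ((B * (2 * M)) ^ 2 * θ)
              ≤ B * ((B * (2 * M)) ^ 2 * (2 ^ a * ε + (B * (M : ℝ) ^ (-(1 - k2))) ^ a)) := by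
                apply mul_le_mul_of_nonneg_left _ hBp.le
                exact mul_le_mul_of_nonneg_left hθ1 (by positivity)
            _ = 4 * B ^ 3 * M ^ 2 * (2 ^ a * ε) +
                4 * B ^ (3 + a) * ((M : ℝ) ^ 2 * ((M : ℝ) ^ (-(1 - k2))) ^ a) := by
                rw [mul_pow, pow_add]; ring
            _ ≤ 1 / 4 + 1 / 4 := add_le_add hε1.le hMr
            _ = 1 / 2 := by norm_num
        have hθ4 : B * ((B * ((N : ℝ) / n)) ^ 2 * θ) ≤ 1 / 2 :=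
          (mul_le_mul_of_nonneg_left hθ2 hBp.le).trans hθ3
        have hθ5 : (B * ((N : ℝ) / n)) ^ 2 * θ ≤ 1 := by
          have h0 : 0 ≤ (B * ((N : ℝ) / n)) ^ 2 * θ := by positivity
          have h1 : (B * ((N : ℝ) / n)) ^ 2 * θ ≤ B * ((B * ((N : ℝ) / n)) ^ 2 * θ) :=
            le_mul_of_one_le_left h0 hB
          linarith
        have hfin := hrec n N hn1' hnN.le ((n : ℝ) ^ (1 - κ)) ((N : ℝ) ^ (1 - κ))
          (A0 * (n : ℝ) ^ (1 - k2)) (A0 * (N : ℝ) ^ (1 - k2)) (by positivity) hgle hsp hSp hKg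
          (by rw [← hθ]; exact hθ5)
        rw [← hθ] at hfin
        linarith
  -- conclusion
  have hda : 0 < (a : ℝ) * (k2 - κ') := by
    have : (1 : ℝ) ≤ a := by exact_mod_cast ha1
    have h2 : 0 < k2 - κ' := by linarith
    positivity
  refine ⟨(a : ℝ) * (k2 - κ') / 2, by linarith, ?_⟩
  have hA : ∀ᶠ n : ℕ in atTop, A0 ^ a ≤ (n : ℝ) ^ ((a : ℝ) * (k2 - κ') / 2) :=
    ((tendsto_rpow_atTop (by linarith : 0 < (a : ℝ) * (k2 - κ') / 2)).comp
      tendsto_natCast_atTop_atTop).eventually_ge_atTop _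
  filter_upwards [hA, eventually_ge_atTop n0] with n hnA hnn
  have hn1' : 1 ≤ n := hn01.trans hnn
  have hnr : (1 : ℝ) ≤ n := by exact_mod_cast hn1'
  have hnp : (0 : ℝ) < n := by linarith
  have hsp : 0 < A0 * (n : ℝ) ^ (1 - k2) := by positivity
  have h1 := hmk n ((n : ℝ) ^ (1 - κ)) (A0 * (n : ℝ) ^ (1 - k2)) ((n : ℝ) ^ (1 - κ')) hn1' hsp
    (by positivity) (Real.rpow_le_rpow_of_exponent_le hnr (by linarith))
  have h2 : F n ((n : ℝ) ^ (1 - κ')) *
      ((n : ℝ) ^ (1 - κ') / (A0 * (n : ℝ) ^ (1 - k2))) ^ a ≤ 1 := by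
    refine le_trans ?_ (h1.trans (key n hnn))
    apply mul_le_mul_of_nonneg_left _ (hF _ _)
    apply pow_le_pow_left₀ (by positivity)
    linarith
  have h3 : (n : ℝ) ^ (1 - κ') / (A0 * (n : ℝ) ^ (1 - k2)) = (n : ℝ) ^ (k2 - κ') / A0 := by
    have h4 : (n : ℝ) ^ (1 - κ') = (n : ℝ) ^ (k2 - κ') * (n : ℝ) ^ (1 - k2) := by
      rw [← Real.rpow_add hnp]; congr 1; ring
    rw [h4]
    have h5 : (n : ℝ) ^ (1 - k2) ≠ 0 := by positivity
    field_simp
  rw [h3, div_pow, ← Real.rpow_natCast ((n : ℝ) ^ (k2 - κ')) a, ← Real.rpow_mul hnp.le,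
    mul_comm (k2 - κ') (a : ℝ)] at h2
  have hAp : 0 < A0 ^ a := by positivity
  rw [← mul_div_assoc, div_le_one hAp] at h2
  have h6 : (n : ℝ) ^ ((a : ℝ) * (k2 - κ')) =
      (n : ℝ) ^ ((a : ℝ) * (k2 - κ') / 2) * (n : ℝ) ^ ((a : ℝ) * (k2 - κ') / 2) := by
    rw [← Real.rpow_add hnp]; congr 1; ring
  obtain ⟨y, hy⟩ : ∃ y : ℝ, y = (n : ℝ) ^ ((a : ℝ) * (k2 - κ') / 2) := ⟨_, rfl⟩
  have hyp : 0 < y := by rw [hy]; positivity
  rw [Real.rpow_neg hnp.le, ← hy]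
  rw [h6, ← hy] at h2
  rw [← hy] at hnA
  rw [← one_div, le_div_iff₀ hyp]
  have h7 : F n ((n : ℝ) ^ (1 - κ')) * y * y ≤ 1 * y := by
    rw [one_mul, mul_assoc]; exact h2.trans hnA
  exact le_of_mul_le_mul_right h7 hyp

end Pool.Agent.Run7.h781.OH
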